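import Mathlib.Combinatorics.SimpleGraph.Prod
import Mathlib.Combinatorics.SimpleGraph.Metric
import Mathlib.Tactic

/-!
# The strong geodetic number of a Cartesian product can be smaller than that of a factor
-/

set_option autoImplicit false

namespace Pool.Agent.Results.MP_8400ad_co.ProductSmaller

open SimpleGraph

/-- `S` is a strong geodetic set of `G`: one can choose for every unordered pair of distinct
vertices `x, y` of `S` one geodesic (a walk from `x` to `y` of length `dist x y`; `P s(x, y)` is its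
set of vertices) such that every vertex of `G` lies on a chosen geodesic -/
def IsStrongGeodetic {V : Type} (G : SimpleGraph V) (S : Finset V) : Prop :=
  ∃ P : Sym2 V → Set V,
    (∀ x ∈ S, ∀ y ∈ S, x ≠ y →
      ∃ p : G.Walk x y, p.length = G.dist x y ∧ P s(x, y) = {v | v ∈ p.support}) ∧
    ∀ v, ∃ x ∈ S, ∃ y ∈ S, x ≠ y ∧ v ∈ P s(x, y)

/-- the strong geodetic number: the least size of a strong geodetic set -/
noncomputable def sg {V : Type} (G : SimpleGraph V) : ℕ :=
  sInf {k | ∃ S : Finset V, S.card = k ∧ IsStrongGeodetic G S}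

/-- the complete bipartite graph `K_{2,13}`, parts `{0, 1}` and `{2, ..., 14}` -/
def K : SimpleGraph (Fin 15) where
  Adj a b := (a < 2 ∧ 2 ≤ b) ∨ (b < 2 ∧ 2 ≤ a)
  symm := ⟨fun _ _ h => h.symm⟩
  loopless := ⟨fun a h => by rcases h with h | h <;> exact absurd h.2 (not_le.2 h.1)⟩

instance : DecidableRel K.Adj := fun a b =>
  inferInstanceAs (Decidable ((a < 2 ∧ 2 ≤ b) ∨ (b < 2 ∧ 2 ≤ a)))

/-- the cycle `C_6` -/
def C : SimpleGraph (Fin 6) where
  Adj a b := b = a + 1 ∨ a = b + 1
  symm := ⟨fun _ _ h => h.symm⟩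
  loopless := ⟨by decide⟩

instance : DecidableRel C.Adj := fun a b =>
  inferInstanceAs (Decidable (b = a + 1 ∨ a = b + 1))

theorem K_conn : K.Connected := by
  have h : ∀ b : Fin 15, K.Reachable 0 b := by
    intro b
    by_cases hb : 2 ≤ b
    · exact Adj.reachable (Or.inl ⟨by decide, hb⟩)
    · have h2 : K.Adj 0 2 := by decide
      have h3 : K.Adj 2 b := Or.inr ⟨not_le.1 hb, le_rfl⟩
      exact h2.reachable.trans h3.reachable
  exact { preconnected := fun a b => (h a).symm.trans (h b), nonempty := ⟨0⟩ }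

theorem C_conn : C.Connected := by
  have h : ∀ b : Fin 6, C.Reachable 0 b := by
    have h1 : C.Adj 0 1 := by decide
    have h2 : C.Adj 1 2 := by decide
    have h3 : C.Adj 2 3 := by decide
    have h4 : C.Adj 3 4 := by decide
    have h5 : C.Adj 4 5 := by decide
    have g1 := h1.reachable
    have g2 := g1.trans h2.reachable
    have g3 := g2.trans h3.reachable
    have g4 := g3.trans h4.reachable
    have g5 := g4.trans h5.reachable
    intro b
    fin_cases b
    · exact Reachable.refl _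
    · exact g1
    · exact g2
    · exact g3
    · exact g4
    · exact g5
  exact { preconnected := fun a b => (h a).symm.trans (h b), nonempty := ⟨0⟩ }

/-- with all unordered pairs assigned arbitrary geodesics except for prescribed ones -/
theorem choice {V : Type} (G : SimpleGraph V) (hG : G.Connected) (R : V → V → Set V → Prop)
    (hR : ∀ x y T, R x y T → ∃ p : G.Walk x y, p.length = G.dist x y ∧ T = {v | v ∈ p.support})
    (hR1 : ∀ x y T x' y' T', R x y T → R x' y' T' → s(x, y) = s(x', y') → T = T') :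
    ∃ P : Sym2 V → Set V, (∀ x y, ∃ p : G.Walk x y, p.length = G.dist x y ∧
      P s(x, y) = {v | v ∈ p.support}) ∧ ∀ x y T, R x y T → P s(x, y) = T := by
  have key : ∀ e : Sym2 V, ∃ T : Set V, (∀ x y, e = s(x, y) →
      ∃ p : G.Walk x y, p.length = G.dist x y ∧ T = {v | v ∈ p.support}) ∧
      ∀ x y T', e = s(x, y) → R x y T' → T = T' := by
    intro e
    have rev : ∀ (a b : V) (T : Set V), e = s(a, b) →
        (∃ p : G.Walk a b, p.length = G.dist a b ∧ T = {v | v ∈ p.support}) →
        ∀ x y, e = s(x, y) →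
          ∃ p : G.Walk x y, p.length = G.dist x y ∧ T = {v | v ∈ p.support} := by
      intro a b T he hp x y hxy
      rw [he] at hxy
      rcases Sym2.eq_iff.1 hxy with ⟨rfl, rfl⟩ | ⟨rfl, rfl⟩
      · exact hp
      · obtain ⟨p, hp1, hp2⟩ := hp
        refine ⟨p.reverse, by rw [Walk.length_reverse, hp1, G.dist_comm], ?_⟩
        rw [hp2]
        ext v
        simp
    by_cases hex : ∃ x y T, e = s(x, y) ∧ R x y T
    · obtain ⟨a, b, T, he, hT⟩ := hex
      refine ⟨T, rev a b T he (hR a b T hT), ?_⟩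
      intro x y T' hxy hT'
      exact hR1 a b T x y T' hT hT' (he.symm.trans hxy)
    · induction e using Sym2.ind with
      | _ a b =>
        obtain ⟨p, hp⟩ := hG.exists_walk_length_eq_dist a b
        refine ⟨{v | v ∈ p.support}, rev a b _ rfl ⟨p, hp, rfl⟩, ?_⟩
        intro x y T' hxy hT'
        exact absurd ⟨x, y, T', hxy, hT'⟩ hex
  choose P hP using key
  exact ⟨P, fun x y => (hP s(x, y)).1 x y rfl, fun x y T hT => (hP s(x, y)).2 x y T rfl hT⟩

/-! ### The lower bound for `K_{2,13}` -/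

theorem K_dist_le (x y : Fin 15) : K.dist x y ≤ 2 := by
  by_cases h : K.Adj x y
  · exact (dist_le (Walk.cons h Walk.nil)).trans (by simp)
  · have : ∃ z, K.Adj x z ∧ K.Adj z y := by
      revert x y
      decide
    obtain ⟨z, h1, h2⟩ := this
    exact (dist_le (Walk.cons h1 (Walk.cons h2 Walk.nil))).trans (by simp)

theorem mid_of_short {V : Type} {G : SimpleGraph V} {x y : V} (p : G.Walk x y) (hp : p.length ≤ 2)
    {w : V} (hw : w ∈ p.support) (hx : w ≠ x) (hy : w ≠ y) :
    G.Adj x w ∧ G.Adj w y ∧ ∀ w' ∈ p.support, w' ≠ x → w' ≠ y → w' = w := by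
  cases p with
  | nil => simp at hw; exact absurd hw hx
  | cons h1 q =>
    cases q with
    | nil => simp at hw; rcases hw with hw | hw <;> contradiction
    | cons h2 r =>
      cases r with
      | nil =>
        simp only [Walk.support_cons, Walk.support_nil, List.mem_cons, List.not_mem_nil,
          or_false] at hw
        rcases hw with hw | hw | hw
        · exact absurd hw hx
        · subst hw
          refine ⟨h1, h2, ?_⟩
          intro w' hw' h3 h4
          simp only [Walk.support_cons, Walk.support_nil, List.mem_cons, List.not_mem_nil,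
            or_false] at hw'
          rcases hw' with hw' | hw' | hw'
          · exact absurd hw' h3
          · exact hw'
          · exact absurd hw' h4
        · exact absurd hw hy
      | cons h3 t => simp at hp

theorem K_lower (S : Finset (Fin 15)) (hS : IsStrongGeodetic K S) : 13 ≤ S.card := by
  by_contra hlt
  push Not at hlt
  obtain ⟨P, hP, hcov⟩ := hS
  -- a middle vertex outside `S` lies on the geodesic of `0` and `1`
  have h1 : ∀ w : Fin 15, 2 ≤ w → w ∉ S → 0 ∈ S ∧ 1 ∈ S ∧ w ∈ P s(0, 1) := by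
    intro w hw hwS
    obtain ⟨x, hx, y, hy, hxy, hwP⟩ := hcov w
    obtain ⟨p, hp, hPp⟩ := hP x hx y hy hxy
    have hwp : w ∈ p.support := by rw [hPp] at hwP; exact hwP
    have hwx : w ≠ x := fun h => hwS (h ▸ hx)
    have hwy : w ≠ y := fun h => hwS (h ▸ hy)
    obtain ⟨ha, hb, -⟩ := mid_of_short p (hp ▸ K_dist_le x y) hwp hwx hwy
    have hx2 : x < 2 := by
      rcases ha with h | h
      · exact h.1
      · exact absurd h.1 (not_lt.2 hw)
    have hy2 : y < 2 := by
      rcases hb with h | h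
      · exact absurd h.1 (not_lt.2 hw)
      · exact h.1
    have hx' : x = 0 ∨ x = 1 := by
      revert hx2; clear * -; revert x; decide
    have hy' : y = 0 ∨ y = 1 := by
      revert hy2; clear * -; revert y; decide
    rcases hx' with rfl | rfl <;> rcases hy' with rfl | rfl
    · exact absurd rfl hxy
    · exact ⟨hx, hy, hwP⟩
    · exact ⟨hy, hx, by rw [Sym2.eq_swap]; exact hwP⟩
    · exact absurd rfl hxy
  -- at most one middle vertex is outside `S`
  have h2 : ∀ w w' : Fin 15, 2 ≤ w → 2 ≤ w' → w ∉ S → w' ∉ S → w' = w := by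
    intro w w' hw hw' hwS hwS'
    obtain ⟨h0, h1', hwP⟩ := h1 w hw hwS
    obtain ⟨-, -, hwP'⟩ := h1 w' hw' hwS'
    obtain ⟨p, hp, hPp⟩ := hP 0 h0 1 h1' (by decide)
    rw [hPp] at hwP hwP'
    have hne : ∀ v : Fin 15, 2 ≤ v → v ≠ 0 ∧ v ≠ 1 := by decide
    exact (mid_of_short p (hp ▸ K_dist_le 0 1) hwP (hne w hw).1 (hne w hw).2).2.2 w' hwP'
      (hne w' hw').1 (hne w' hw').2
  set M : Finset (Fin 15) := Finset.univ.filter (fun w => 2 ≤ w) with hM
  have hMc : M.card = 13 := by rw [hM]; decide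
  have hex : ∃ w ∈ M, w ∉ S := by
    by_contra hcon
    push Not at hcon
    have := Finset.card_le_card (show M ⊆ S from hcon)
    omega
  obtain ⟨w, hwM, hwS⟩ := hex
  have hw2 : 2 ≤ w := by rw [hM, Finset.mem_filter] at hwM; exact hwM.2
  obtain ⟨h0, h1', -⟩ := h1 w hw2 hwS
  have hsub : insert 0 (insert 1 (M.erase w)) ⊆ S := by
    intro v hv
    rw [Finset.mem_insert, Finset.mem_insert, Finset.mem_erase] at hv
    rcases hv with rfl | rfl | ⟨hv1, hv2⟩
    · exact h0
    · exact h1'
    · by_contra hvS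
      rw [hM, Finset.mem_filter] at hv2
      exact hv1 (h2 w v hw2 hv2.2 hwS hvS)
  have hcard : (insert (0 : Fin 15) (insert 1 (M.erase w))).card = 14 := by
    rw [Finset.card_insert_of_notMem, Finset.card_insert_of_notMem, Finset.card_erase_of_mem hwM,
      hMc]
    · rw [Finset.mem_erase, hM, Finset.mem_filter]
      rintro ⟨-, -, h⟩
      exact absurd h (by decide)
    · rw [Finset.mem_insert, Finset.mem_erase, hM, Finset.mem_filter]
      rintro (h | ⟨-, -, h⟩)
      · exact absurd h (by decide)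
      · exact absurd h (by decide)
  have := Finset.card_le_card hsub
  omega

theorem K_nonempty : ∃ S : Finset (Fin 15), IsStrongGeodetic K S := by
  obtain ⟨P, hP, -⟩ := choice K K_conn (fun _ _ _ => False) (by simp) (by simp)
  refine ⟨Finset.univ, P, fun x _ y _ _ => hP x y, ?_⟩
  intro v
  have : ∃ y : Fin 15, v ≠ y := by
    revert v; decide
  obtain ⟨y, hy⟩ := this
  obtain ⟨p, -, hp⟩ := hP v y
  refine ⟨v, Finset.mem_univ _, y, Finset.mem_univ _, hy, ?_⟩
  rw [hp]
  exact Walk.start_mem_support p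

theorem sg_K : 13 ≤ sg K := by
  obtain ⟨S, hS⟩ := K_nonempty
  refine le_csInf ⟨S.card, S, rfl, hS⟩ ?_
  rintro k ⟨T, rfl, hT⟩
  exact K_lower T hT

/-! ### The upper bound for the product -/

/-- distance in the cycle -/
def cd (a b : Fin 6) : ℕ := min (b - a).val (a - b).val

/-- the first step of the chosen geodesic from `a` to `b` in the cycle -/
def nx (a b : Fin 6) : Fin 6 := if (b - a).val ≤ 3 then a + 1 else a - 1

/-- the vertices of the chosen geodesic from `a` to `b` in the cycle -/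
def seg (a b : Fin 6) : Finset (Fin 6) :=
  if (b - a).val ≤ 3 then Finset.univ.filter (fun h => (h - a).val ≤ (b - a).val)
  else Finset.univ.filter (fun h => (a - h).val ≤ (a - b).val)

/-- the column used by the chosen geodesic from `(0, a)` to `(1, b)` -/
def col (a b : Fin 6) : Fin 15 :=
  if b - a = 3 then Fin.ofNat 15 (2 + a.val % 3)
  else if b - a = 2 then Fin.ofNat 15 (5 + a.val % 3)
  else if b - a = 4 then Fin.ofNat 15 (8 + a.val % 3)
  else if b - a = 1 then Fin.ofNat 15 (11 + a.val % 2)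
  else if b - a = 5 then Fin.ofNat 15 (13 + a.val % 2)
  else 2

theorem col_walk (c : Fin 15) : ∀ (n : ℕ) (a b : Fin 6), cd a b = n →
    ∃ p : (K □ C).Walk (c, a) (c, b), p.length = n ∧
      ∀ v, v ∈ p.support ↔ v.1 = c ∧ v.2 ∈ seg a b := by
  intro n
  induction n with
  | zero =>
    intro a b h
    have h1 : a = b ∧ ∀ v, v = a ↔ v ∈ seg a b := by
      revert a b; decide
    obtain ⟨rfl, h2⟩ := h1
    refine ⟨Walk.nil, rfl, ?_⟩
    rintro ⟨v1, v2⟩
    rw [Walk.support_nil, List.mem_singleton, Prod.mk.injEq, h2]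
  | succ n ih =>
    intro a b h
    have h1 : cd a b ≠ 0 → C.Adj a (nx a b) ∧ cd (nx a b) b + 1 = cd a b ∧
        ∀ v, v ∈ seg a b ↔ (v = a ∨ v ∈ seg (nx a b) b) := by
      clear h ih
      revert a b; decide
    obtain ⟨h2, h3, h4⟩ := h1 (by omega)
    obtain ⟨p, hp1, hp2⟩ := ih (nx a b) b (by omega)
    have e : (K □ C).Adj (c, a) (c, nx a b) := Or.inr ⟨h2, rfl⟩
    refine ⟨Walk.cons e p, by rw [Walk.length_cons, hp1], ?_⟩
    rintro ⟨v1, v2⟩
    rw [Walk.support_cons, List.mem_cons, hp2, h4, Prod.mk.injEq]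
    tauto

/-- the potential in `K` -/
def pot (a : Fin 15) : ℕ := if a = 0 then 0 else if a = 1 then 2 else 1

theorem walk_lip {V : Type} {G : SimpleGraph V} (f : V → ℕ) (hf : ∀ a b, G.Adj a b → f b ≤ f a + 1)
    {x y : V} (p : G.Walk x y) : f y ≤ f x + p.length := by
  induction p with
  | nil => simp
  | cons h p ih =>
    rw [Walk.length_cons]
    have := hf _ _ h
    omega

/-- the chosen geodesic from `(0, a)` to `(1, b)` -/
theorem main_walk (a b : Fin 6) : ∃ p : (K □ C).Walk (0, a) (1, b),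
    p.length = (K □ C).dist (0, a) (1, b) ∧
    ({v | v = (0, a) ∨ v = (1, b) ∨ (v.1 = col a b ∧ v.2 ∈ seg a b)} : Set (Fin 15 × Fin 6)) =
      {v | v ∈ p.support} := by
  have hc : K.Adj 0 (col a b) ∧ K.Adj (col a b) 1 := by
    revert a b; decide
  obtain ⟨r, hr1, hr2⟩ := col_walk (col a b) (cd a b) a b rfl
  have e1 : (K □ C).Adj (0, a) (col a b, a) := Or.inl ⟨hc.1, rfl⟩
  have e2 : (K □ C).Adj (col a b, b) (1, b) := Or.inl ⟨hc.2, rfl⟩
  refine ⟨Walk.cons e1 (r.append (Walk.cons e2 Walk.nil)), ?_, ?_⟩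
  · have hlen : (Walk.cons e1 (r.append (Walk.cons e2 Walk.nil))).length = cd a b + 2 := by
      rw [Walk.length_cons, Walk.length_append, hr1]
      simp
    apply le_antisymm _ (dist_le _)
    rw [hlen]
    obtain ⟨p, hp⟩ := (K_conn.boxProd C_conn).exists_walk_length_eq_dist (0, a) (1, b)
    rw [← hp]
    have hf : ∀ x y : Fin 15 × Fin 6, (K □ C).Adj x y →
        pot y.1 + cd a y.2 ≤ pot x.1 + cd a x.2 + 1 := by
      rintro ⟨x1, x2⟩ ⟨y1, y2⟩ (⟨h1, h2⟩ | ⟨h1, h2⟩)
      · simp only at h1 h2 ⊢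
        subst h2
        have : K.Adj x1 y1 → pot y1 ≤ pot x1 + 1 := by
          clear * -; revert x1 y1; decide
        have := this h1
        omega
      · simp only at h1 h2 ⊢
        subst h2
        have : C.Adj x2 y2 → cd a y2 ≤ cd a x2 + 1 := by
          clear * -; revert a x2 y2; decide
        have := this h1
        omega
    have := walk_lip (fun v : Fin 15 × Fin 6 => pot v.1 + cd a v.2) hf p
    have h3 : pot 1 = 2 ∧ pot 0 = 0 := by decide
    have h4 : cd a a = 0 := by clear * -; revert a; decide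
    simp only at this
    omega
  · ext ⟨v1, v2⟩
    simp only [Set.mem_ofPred_eq, Walk.support_cons, List.mem_cons, Walk.mem_support_append_iff,
      Walk.support_nil, List.not_mem_nil, or_false]
    have h5 : (v1, v2) ∈ r.support ↔ v1 = col a b ∧ v2 ∈ seg a b := hr2 (v1, v2)
    have h6 : b ∈ seg a b := by clear * -; revert a b; decide
    rw [h5]
    constructor
    · rintro (h | h | h)
      · exact Or.inl h
      · exact Or.inr (Or.inr (Or.inr h))
      · exact Or.inr (Or.inl h)
    · rintro (h | h | h | h)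
      · exact Or.inl h
      · exact Or.inr (Or.inr h)
      · rw [Prod.mk.injEq] at h
        exact Or.inr (Or.inr ⟨h.1, h.2 ▸ h6⟩)
      · exact Or.inr (Or.inl h)

theorem cover : ∀ w : Fin 15, 2 ≤ w → ∀ h : Fin 6, ∃ a b, col a b = w ∧ h ∈ seg a b := by
  decide

theorem prod_upper : ∃ S : Finset (Fin 15 × Fin 6), S.card = 12 ∧ IsStrongGeodetic (K □ C) S := by
  obtain ⟨P, hP, hPR⟩ := choice (K □ C) (K_conn.boxProd C_conn)
    (fun x y T => x.1 = 0 ∧ y.1 = 1 ∧
      T = {v | v = x ∨ v = y ∨ (v.1 = col x.2 y.2 ∧ v.2 ∈ seg x.2 y.2)}) (by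
      rintro ⟨x1, x2⟩ ⟨y1, y2⟩ T ⟨h1, h2, rfl⟩
      simp only at h1 h2
      subst h1 h2
      exact main_walk x2 y2) (by
      rintro ⟨x1, x2⟩ ⟨y1, y2⟩ T ⟨x1', x2'⟩ ⟨y1', y2'⟩ T' ⟨h1, h2, rfl⟩ ⟨h3, h4, rfl⟩ he
      simp only at h1 h2 h3 h4
      subst h1 h2 h3 h4
      rcases Sym2.eq_iff.1 he with ⟨h5, h6⟩ | ⟨h5, h6⟩
      · rw [Prod.mk.injEq] at h5 h6
        obtain ⟨-, rfl⟩ := h5
        obtain ⟨-, rfl⟩ := h6
        rfl
      · rw [Prod.mk.injEq] at h5
        exact absurd h5.1 (by decide))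
  refine ⟨({0, 1} : Finset (Fin 15)) ×ˢ Finset.univ, by decide, P, fun x _ y _ _ => hP x y, ?_⟩
  rintro ⟨w, h⟩
  by_cases hw : 2 ≤ w
  · obtain ⟨a, b, hab, hs⟩ := cover w hw h
    refine ⟨(0, a), by simp, (1, b), by simp, by simp, ?_⟩
    rw [hPR (0, a) (1, b) _ ⟨rfl, rfl, rfl⟩]
    exact Or.inr (Or.inr ⟨hab.symm, hs⟩)
  · have hw' : w = 0 ∨ w = 1 := by
      clear hP hPR
      revert hw; revert w; decide
    rcases hw' with rfl | rfl
    · refine ⟨(0, h), by simp, (1, h), by simp, by simp, ?_⟩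
      rw [hPR (0, h) (1, h) _ ⟨rfl, rfl, rfl⟩]
      exact Or.inl rfl
    · refine ⟨(0, h), by simp, (1, h), by simp, by simp, ?_⟩
      rw [hPR (0, h) (1, h) _ ⟨rfl, rfl, rfl⟩]
      exact Or.inr (Or.inl rfl)

/-- there are finite connected graphs `G`, `H` with `sg (G □ H) < sg G` -/
theorem result : ∃ (V W : Type) (_ : Fintype V) (_ : Fintype W) (G : SimpleGraph V)
    (H : SimpleGraph W), G.Connected ∧ H.Connected ∧ sg (G □ H) < sg G := by
  refine ⟨Fin 15, Fin 6, inferInstance, inferInstance, K, C, K_conn, C_conn, ?_⟩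
  have h1 : sg (K □ C) ≤ 12 := by
    obtain ⟨S, hS, hS'⟩ := prod_upper
    exact Nat.sInf_le ⟨S, hS, hS'⟩
  have := sg_K
  omega

end Pool.Agent.Results.MP_8400ad_co.ProductSmaller
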